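import Pool.Agent.helper78.HFN.Spec

/-! # Project HFN (MP_3221a1_ag), row SL1: the next point -/

set_option autoImplicit false

namespace Pool.Agent.HFN

open Polynomial Module

noncomputable section

theorem SL1_fin (hBZT : BZT_stmt) (C f : AA) (hC : Irreducible C) (hf : ¬ C ∣ f) :
    {z : ℂ × ℂ | ev z C = 0 ∧ ev z f = 0}.Finite := by
  by_contra h
  obtain ⟨s, hs, hcard⟩ := Set.Infinite.exists_subset_card_eq h (ip (dX f) (dY f) C + 1)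
  have h1 := hBZT C f hC hf (dX f) (dY f) (mem_V.2 ⟨le_rfl, le_rfl⟩) ∅ s (Finset.disjoint_empty_left _)
    (fun z hz => absurd hz (Finset.notMem_empty z)) (fun z hz => hs hz)
  rw [Finset.card_empty] at h1
  omega

theorem SL1 (hINF : INF_stmt) (hBZT : BZT_stmt) : SL1_stmt := by
  classical
  intro m Cs hirr hass t Z p q
  have hch : ∀ x : ℕ × ℕ × Finset (ℂ × ℂ), ∃ g : AA,
      ((∃ f : AA, f ∈ V x.1 x.2.1 ∧ (∀ w ∈ x.2.2, ev w f = 0) ∧ ¬ Cs t ∣ f) →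
        (g ∈ V x.1 x.2.1 ∧ (∀ w ∈ x.2.2, ev w g = 0) ∧ ¬ Cs t ∣ g)) ∧ ¬ Cs t ∣ g := by
    intro x
    by_cases h : ∃ f : AA, f ∈ V x.1 x.2.1 ∧ (∀ w ∈ x.2.2, ev w f = 0) ∧ ¬ Cs t ∣ f
    · obtain ⟨f, hf⟩ := h
      exact ⟨f, fun _ => hf, hf.2.2⟩
    · exact ⟨1, fun h' => absurd h' h, fun h' => (hirr t).not_isUnit (isUnit_of_dvd_one h')⟩
  choose g hg1 hg2 using hch
  set I : Finset (ℕ × ℕ × Finset (ℂ × ℂ)) := Finset.range (p + 1) ×ˢ (Finset.range (q + 1) ×ˢ Z.powerset) with hI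
  set A : Set (ℂ × ℂ) := ⋃ t' ∈ {t' : Fin m | t' ≠ t}, {z : ℂ × ℂ | ev z (Cs t) = 0 ∧ ev z (Cs t') = 0} with hA
  set B : Set (ℂ × ℂ) := ⋃ x ∈ (I : Set (ℕ × ℕ × Finset (ℂ × ℂ))), {z : ℂ × ℂ | ev z (Cs t) = 0 ∧ ev z (g x) = 0} with hB
  have hAf : A.Finite := by
    refine Set.Finite.biUnion (Set.toFinite _) fun t' ht' => ?_
    refine SL1_fin hBZT _ _ (hirr t) fun h => ?_
    exact hass t t' (Ne.symm ht') (((hirr t).dvd_irreducible_iff_associated (hirr t')).1 h)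
  have hBf : B.Finite := by
    refine Set.Finite.biUnion (Finset.finite_toSet I) fun x _ => ?_
    exact SL1_fin hBZT _ _ (hirr t) (hg2 x)
  have hinf : ({z : ℂ × ℂ | ev z (Cs t) = 0} \ (((Z : Set (ℂ × ℂ)) ∪ A) ∪ B)).Infinite :=
    (hINF _ (hirr t)).sdiff (((Finset.finite_toSet Z).union hAf).union hBf)
  obtain ⟨z, hz0, hz1⟩ := hinf.nonempty
  have hz0' : ev z (Cs t) = 0 := hz0
  refine ⟨z, hz0', fun h => hz1 (Or.inl (Or.inl h)), fun t' ht' h => hz1 (Or.inl (Or.inr ?_)), ?_⟩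
  · rw [hA]
    exact Set.mem_biUnion (x := t') ht' ⟨hz0', h⟩
  · rintro a b ha hb S hS ⟨f, hf1, hf2, hf3⟩
    have h1 := hg1 (a, b, S) ⟨f, hf1, hf2, hf3⟩
    refine ⟨g (a, b, S), h1.1, h1.2.1, fun h => hz1 (Or.inr ?_)⟩
    rw [hB]
    have hmem : (a, b, S) ∈ (I : Set (ℕ × ℕ × Finset (ℂ × ℂ))) := by
      rw [Finset.mem_coe, hI, Finset.mem_product, Finset.mem_product, Finset.mem_range, Finset.mem_range, Finset.mem_powerset]
      exact ⟨Nat.lt_succ_of_le ha, Nat.lt_succ_of_le hb, hS⟩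
    exact Set.mem_biUnion (x := (a, b, S)) hmem ⟨hz0', h⟩

end

end Pool.Agent.HFN
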